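import Mathlib
import Pool.Agent.Helper894.Div.Ex
import Pool.Agent.Helper894.Div.Bridge
import Pool.Agent.V7H26.Div.RecC
import Pool.Agent.V7H26.Div.Lower

set_option autoImplicit false

namespace Pool.Agent.Results.MP_19149c_co.LinearExcessH26

open Module

/-- No `2k+2` points of `S` lie in a common `k`-flat (a nonempty affine subspace of dimension
`k`). -/
def FlatCondition {d : ℕ} (k : ℕ) (S : Finset (EuclideanSpace ℝ (Fin d))) : Prop :=
  ∀ F : AffineSubspace ℝ (EuclideanSpace ℝ (Fin d)),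
    (F : Set (EuclideanSpace ℝ (Fin d))).Nonempty → finrank ℝ F.direction = k →
    ∀ T : Finset (EuclideanSpace ℝ (Fin d)), T ⊆ S → (∀ x ∈ T, x ∈ F) → T.card < 2 * k + 2

/-- `S` is `(2,k)`-divisible: it splits into two disjoint parts whose convex hulls meet in a
(nonempty) set whose affine hull has dimension at least `k`. -/
def TwoDivisible {d : ℕ} (k : ℕ) (S : Finset (EuclideanSpace ℝ (Fin d))) : Prop :=
  ∃ A B : Finset (EuclideanSpace ℝ (Fin d)), A ∪ B = S ∧ Disjoint A B ∧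
    (convexHull ℝ (A : Set (EuclideanSpace ℝ (Fin d))) ∩
      convexHull ℝ (B : Set (EuclideanSpace ℝ (Fin d)))).Nonempty ∧
    k ≤ finrank ℝ (vectorSpan ℝ (convexHull ℝ (A : Set (EuclideanSpace ℝ (Fin d))) ∩
      convexHull ℝ (B : Set (EuclideanSpace ℝ (Fin d)))))

/-- The set of all `N` such that every finite `S ⊆ ℝ^d` with at least `N` points, no `2k+2` of
them in a common `k`-flat, is `(2,k)`-divisible. -/
def Good (k d : ℕ) : Set ℕ :=
  {N | ∀ S : Finset (EuclideanSpace ℝ (Fin d)), FlatCondition k S → N ≤ S.card →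
    TwoDivisible k S}

/-- `n(k,d)` is the least member of `Good k d`. -/
noncomputable def n (k d : ℕ) : ℕ := sInf (Good k d)

lemma div_iff {d k : ℕ} (S : Finset (EuclideanSpace ℝ (Fin d))) :
    TwoDivisible k S ↔ Pool.Agent.Helper894.Div.Dep.Div2 k S := by
  classical
  unfold TwoDivisible Pool.Agent.Helper894.Div.Dep.Div2
  constructor
  · rintro ⟨A, B, h1, h2⟩
    refine ⟨A, B, ?_, h2⟩
    rw [← h1]
  · rintro ⟨A, B, h1, h2⟩
    refine ⟨A, B, ?_, h2⟩
    rw [← h1]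

theorem good_upper (k d : ℕ) (hk : 3 ≤ k) (hkd : k + 2 ≤ d) : 2 * d + k - 1 ∈ Good k d := by
  classical
  intro S hS hc
  rw [div_iff]
  refine Pool.Agent.V7H26.Div.RecC.upperC d k hk hkd finrank_euclideanSpace_fin S ?_ hc
  exact Pool.Agent.Helper894.Div.Bridge.bridge k (by rw [finrank_euclideanSpace_fin]; omega) S hS

theorem good_lower (k d N : ℕ) (hk : 2 ≤ k) (hkd : k + 2 ≤ d) (hn : N ∈ Good k d) :
    2 * d + 2 ≤ N ∧ d + 2 * k ≤ N := by
  classical
  constructor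
  · by_contra hlt
    have hD := Pool.Agent.Helper894.Div.Ex.cross_not_div d k (by omega)
    refine hD ((div_iff _).mp (hn _ ?_ ?_))
    · intro F _ hF T hT hTF
      have := Pool.Agent.Helper894.Div.Ex.cross_flat d k F hF T hT hTF
      omega
    · rw [Pool.Agent.Helper894.Div.Ex.card_cross]
      omega
  · by_contra hlt
    have hD := Pool.Agent.Helper894.Div.Ex.ex2_not_div d k hk hkd
    refine hD ((div_iff _).mp (hn _ ?_ ?_))
    · intro F _ hF T hT hTF
      have := Pool.Agent.Helper894.Div.Ex.ex2_flat d k (by omega) hkd F hF T hT hTF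
      omega
    · rw [Pool.Agent.Helper894.Div.Ex.card_ex2 d k (by omega) (by omega)]
      omega

theorem good_lower_linear (b k d N : ℕ) (hk : 27 * b + 14 ≤ 2 * k) (hd : k + 4 * b + 1 ≤ d)
    (hn : N ∈ Good k d) : 2 * d + 3 + b ≤ N := by
  classical
  by_contra hlt
  obtain ⟨S, hc, hF, hD⟩ := Pool.Agent.V7H26.Div.Lower.lower b k d hk hd
  refine hD ((div_iff _).mp (hn S ?_ ?_))
  · intro F _ hFk T hT hTF
    exact hF F hFk T hT hTF
  · omega

/-- For `3 ≤ k ≤ d - 2`: `max (2d+2) (d+2k) ≤ n(k,d) ≤ 2d+k-1`, and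
`2d+3+b ≤ n(k,d)` whenever `27b+14 ≤ 2k` and `k+4b+1 ≤ d`. -/
theorem result :
    (∀ k d : ℕ, 3 ≤ k → k + 2 ≤ d →
      IsLeast (Good k d) (n k d) ∧ max (2 * d + 2) (d + 2 * k) ≤ n k d ∧
      n k d ≤ 2 * d + k - 1) ∧
    (∀ b k d : ℕ, 27 * b + 14 ≤ 2 * k → k + 2 ≤ d → k + 4 * b + 1 ≤ d →
      2 * d + 3 + b ≤ n k d) ∧
    (∀ k d : ℕ, 3 ≤ k → k + 2 ≤ d → 4 * k ≤ 3 * d →
      2 * d + 2 + (2 * k + 13) / 27 ≤ n k d ∧ n k d ≤ 2 * d + k - 1) ∧
    (∀ k d : ℕ, 7 ≤ k → 2 * k - 2 ≤ d → max (2 * d + 2) (d + 2 * k) < n k d) ∧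
    (∀ k : ℕ, 3 ≤ k → n k (k + 2) = 3 * k + 2 ∨ n k (k + 2) = 3 * k + 3) ∧
    (∀ d : ℕ, 6 ≤ d → n 4 d = 2 * d + 2 ∨ n 4 d = 2 * d + 3) := by
  have gen : ∀ k d : ℕ, 3 ≤ k → k + 2 ≤ d →
      IsLeast (Good k d) (n k d) ∧ max (2 * d + 2) (d + 2 * k) ≤ n k d ∧
      n k d ≤ 2 * d + k - 1 := by
    intro k d hk hkd
    have hne : (Good k d).Nonempty := ⟨_, good_upper k d hk hkd⟩
    have hmem : n k d ∈ Good k d := Nat.sInf_mem hne
    have hlow := good_lower k d _ (by omega) hkd hmem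
    exact ⟨⟨hmem, fun N hN => Nat.sInf_le hN⟩, max_le hlow.1 hlow.2,
      Nat.sInf_le (good_upper k d hk hkd)⟩
  have lin : ∀ b k d : ℕ, 27 * b + 14 ≤ 2 * k → k + 2 ≤ d → k + 4 * b + 1 ≤ d →
      2 * d + 3 + b ≤ n k d := by
    intro b k d h1 h2 h3
    exact good_lower_linear b k d _ h1 h3 (gen k d (by omega) h2).1.1
  refine ⟨gen, lin, ?_, ?_, ?_, ?_⟩
  · intro k d hk hkd h4
    obtain ⟨-, h5, h6⟩ := gen k d hk hkd
    refine ⟨?_, h6⟩
    rcases Nat.eq_zero_or_pos ((2 * k + 13) / 27) with h0 | h0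
    · rw [h0]
      exact le_trans (le_max_left _ _) h5
    · have h7 : 27 * ((2 * k + 13) / 27) ≤ 2 * k + 13 := Nat.mul_div_le _ _
      have h8 := lin ((2 * k + 13) / 27 - 1) k d (by omega) hkd (by omega)
      omega
  · intro k d hk hd
    have h := lin 0 k d (by omega) (by omega) (by omega)
    rw [max_lt_iff]
    omega
  · intro k hk
    obtain ⟨-, h2, h3⟩ := gen k (k + 2) hk le_rfl
    have h4 := le_trans (le_max_right _ _) h2
    omega
  · intro d hd
    obtain ⟨-, h2, h3⟩ := gen 4 d (by omega) (by omega)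
    have h4 := le_trans (le_max_left _ _) h2
    omega

end Pool.Agent.Results.MP_19149c_co.LinearExcessH26
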